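import Pool.Agent.H71.CQ.Basic

/-!
# MP_5607ba_lc, project CQ: row ORB
-/

set_option autoImplicit false

open Set

namespace Pool.Agent.H38.CQ

open Pool.Agent.H71.CQ

theorem pf_ORB (hDEG : T_DEG) : T_ORB := by
  intro L N hSep V V' e e' hm hm' hs
  have key : ∀ x, ∀ hx : Wp N e x,
      {y' : V' | ∃ h : {x // Wp N e x} ≃ {x // Wp N e' x}, WIso N e e' h ∧
        (h ⟨x, hx⟩ : V') = y'}.Finite := by
    intro x hx
    induction hx with
    | base x hf =>
      have h1 : (Srt e' (e x x)).Finite := by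
        by_contra h
        exact ((hs _).2 h) hf
      refine h1.subset ?_
      rintro _ ⟨h, hh, rfl⟩
      exact hh _ _
    | step x y hx hc ih =>
      have h1 : (⋃ x' ∈ {y' : V' | ∃ h : {x // Wp N e x} ≃ {x // Wp N e' x}, WIso N e e' h ∧
          (h ⟨x, hx⟩ : V') = y'}, {z | e' x' z = e x y}).Finite :=
        ih.biUnion fun x' _ => (hDEG L N hSep V' V' e' e' hm' hm' x' x' rfl _ hc).1
      refine h1.subset ?_
      rintro _ ⟨h, hh, rfl⟩
      refine Set.mem_biUnion (x := (h ⟨x, hx⟩ : V')) ⟨h, hh, rfl⟩ ?_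
      exact hh ⟨x, hx⟩ ⟨y, Wp.step x y hx hc⟩
  rintro ⟨x, hx⟩
  refine Set.Finite.of_finite_image (f := Subtype.val) ((key x hx).subset ?_)
    Subtype.val_injective.injOn
  rintro _ ⟨_, ⟨h, hh, rfl⟩, rfl⟩
  exact ⟨h, hh, rfl⟩

end Pool.Agent.H38.CQ
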