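import Pool.Agent.H71.CQ.Basic

/-!
# MP_5607ba_lc, project CQ: row SFH
-/

set_option autoImplicit false

open Set

namespace Pool.Agent.H38.CQ

open Pool.Agent.H71.CQ

theorem pf_SFH : T_SFH := by
  intro L N hSep hFre hUn2 e0 J e g hm0 hm hs hw
  have hsim : ∀ j, Sim N e0 (e j) := fun j => ⟨hs j, g j, hw j⟩
  have hfr : ∀ v w : SQ N e, v.1 ≠ w.1 → fr N (e v.1 v.2 v.2) (e w.1 w.2 w.2) ∈
      Fr N (e v.1 v.2 v.2) (e w.1 w.2 w.2) := by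
    intro v w _
    refine fr_mem (hFre (e v.1) (hm v.1) _ _ (srt_inf v.2.2) ?_)
    have h1 : (Srt (e w.1) (e w.1 w.2 w.2)).Infinite := srt_inf w.2.2
    exact (hs v.1 _).1 ((hs w.1 _).2 h1)
  refine ⟨hm0, hm, hs, hw, hfr, ?_⟩
  intro v w hvw
  have hS : (Fr N (e w.1 w.2 w.2) (e v.1 v.2 v.2)).Subsingleton :=
    hUn2 (e w.1) (e v.1) (hm w.1) (hm v.1) ((hsim w.1).symm.trans (hsim v.1)) _ _ w.2.2 v.2.2
  exact hS (hfr w v (Ne.symm hvw)) (fr_rev (hfr v w hvw))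

end Pool.Agent.H38.CQ
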